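import Pool.Agent.W2helper57.LC.Stm

/-!
# Pieces about quantifiers: `S_GTU`, `S_GTN`, `S_MRU`, `S_MRN`, `S_PEELU`, `S_PEELN`
-/

set_option autoImplicit false

namespace Pool.Agent.W2helper85.LC

open Pool.Agent.NPC Pool.Agent.H620R2.Gauge Pool.Agent.H591R3.PHG Pool.Agent.H622R2
  Pool.Agent.W2helper57.LC H529R3.Lev

/-! ### Generalities -/

/-- the negation of the answer -/
def notF (s : List Bool) : List Bool := if s = [true] then [] else [true]

theorem poly_notF : Poly notF :=
  Poly.ite (p := fun s : List Bool => s = [true]) (Poly.decide_eq Poly.id (NPC.Poly.const [true]))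
    (NPC.Poly.const []) (NPC.Poly.const [true])

theorem notF_eq (s : List Bool) : notF s = [true] ↔ ¬ s = [true] := by
  unfold notF
  by_cases h : s = [true] <;> simp [h]

theorem quant_not (m : ℕ) (V : List Bool → List Bool) : ∀ (k : ℕ) (b : Bool) (y : List Bool),
    Quant m (fun z => notF (V z)) k b y ↔ ¬ Quant m V k (!b) y := by
  intro k
  induction k with
  | zero =>
    intro b y
    simp only [Quant, notF_eq]
  | succ k ih =>
    intro b y
    cases b with
    | true =>
      simp only [Quant, ih, Bool.not_true, Bool.not_false]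
      push Not
      rfl
    | false =>
      simp only [Quant, ih, Bool.not_true, Bool.not_false]
      push Not
      rfl

theorem UFP.precomp (hS : S_SEQ) {V : Oracle → List Bool → List Bool} (hV : UFP V)
    {g : List Bool → List Bool} (hg : Poly g) : UFP (fun A x => V A (g x)) :=
  hS V V (fun p => g p.1) (fun p => p.2.2) hV hV (hg.comp (Poly.fst Poly.id))
    (Poly.snd (Poly.snd Poly.id))

theorem UFP.not (hS : S_SEQ) {V : Oracle → List Bool → List Bool} (hV : UFP V) :
    UFP (fun A x => notF (V A x)) :=
  hS V V (fun p => p.1) (fun p => notF p.2.1) hV hV (Poly.fst Poly.id)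
    (poly_notF.comp (Poly.fst (Poly.snd Poly.id)))

theorem IsFP.not {A : Oracle} {V : List Bool → List Bool} (hV : IsFP A V) :
    IsFP A (fun x => notF (V x)) :=
  IsFP.seq (φ := fun p => p.1) (ψ := fun p => notF p.2.1) hV hV (Poly.fst Poly.id)
    (poly_notF.comp (Poly.fst (Poly.snd Poly.id)))

theorem upoly_bound {n : List Bool → ℕ} (hn : UPoly n) :
    ∃ b : Polynomial ℕ, ∀ x : List Bool, n x ≤ b.eval x.length := by
  obtain ⟨q, hq⟩ := hn.sz_le
  refine ⟨q.comp (Polynomial.C 4 * Polynomial.X + Polynomial.C 1), fun x => ?_⟩
  have h1 := length_lt_sz (List.replicate (n x) ())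
  rw [List.length_replicate] at h1
  rw [Polynomial.eval_comp]
  refine h1.le.trans ((hq x).trans (eval_mono _ ?_))
  have h5 := sz_listBool_le x
  simpa using h5

/-! ### Truncation -/

/-- Truncation of the quantified strings to the length `n x`, where `x` is the base string, which is
replaced by `g x`. -/
def tG (n : List Bool → ℕ) (g : List Bool → List Bool) : ℕ → List Bool → List Unit × List Bool
  | 0, y => (List.replicate (n y) (), g y)
  | k + 1, z => ((tG n g k (unpair z).2).1,
      pairBits (((unpair z).1.zip (tG n g k (unpair z).2).1).map (fun u => u.1))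
        (tG n g k (unpair z).2).2)

theorem poly_tG {n : List Bool → ℕ} (hn : UPoly n) {g : List Bool → List Bool} (hg : Poly g)
    (k : ℕ) : Poly (tG n g k) := by
  have h1 : Poly (fun z : List Bool => (unpair z).1) := Poly.fst poly_unpair
  have h2 : Poly (fun z : List Bool => (unpair z).2) := Poly.snd poly_unpair
  induction k with
  | zero => exact (Poly.pair hn hg).congr (fun z => rfl)
  | succ k ih =>
    have h3 : Poly (fun z : List Bool => tG n g k (unpair z).2) := ih.comp h2
    have h4 : Poly (fun z : List Bool => (unpair z).1.zip (tG n g k (unpair z).2).1) :=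
      Poly.zip h1 (Poly.fst h3)
    have h5 : Poly (fun z : List Bool =>
        ((unpair z).1.zip (tG n g k (unpair z).2).1).map (fun u => u.1)) :=
      Pool.Agent.NPC.Poly.map (F := fun _ u => u.1) h4 (Poly.fst (Poly.snd Poly.id))
    exact (Poly.pair (Poly.fst h3) (poly_pairBits h5 (Poly.snd h3))).congr (fun z => rfl)

theorem quant_tG (n : List Bool → ℕ) (g V : List Bool → List Bool) {m m' : ℕ} (hm : m ≤ m') :
    ∀ (k j : ℕ) (b : Bool) (y t : List Bool), tG n g j y = (List.replicate m (), t) →
      (Quant m V k b t ↔ Quant m' (fun z => V (tG n g (j + k) z).2) k b y) := by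
  intro k
  induction k with
  | zero =>
    intro j b y t h
    cases b <;> simp [Quant, h]
  | succ k ih =>
    intro j b y t h
    have key : ∀ w : List Bool, tG n g (j + 1) (pairBits w y) =
        (List.replicate m (), pairBits (w.take m) t) := by
      intro w
      simp only [tG, unpair_pairBits, h, map_fst_zip_replicate']
    have e : j + 1 + k = j + (k + 1) := by omega
    cases b with
    | true =>
      simp only [Quant]
      constructor
      · rintro ⟨w, hw, h1⟩
        refine ⟨w, hw.trans hm, ?_⟩
        have h2 := (ih (j + 1) false (pairBits w y) _ (key w))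
        rw [List.take_of_length_le hw, e] at h2
        exact h2.1 h1
      · rintro ⟨w, hw, h1⟩
        refine ⟨w.take m, by simp, ?_⟩
        have h2 := (ih (j + 1) false (pairBits w y) _ (key w))
        rw [e] at h2
        exact h2.2 h1
    | false =>
      simp only [Quant]
      constructor
      · intro h1 w hw
        have h2 := (ih (j + 1) true (pairBits w y) _ (key w))
        rw [e] at h2
        exact h2.1 (h1 (w.take m) (by simp))
      · intro h1 w hw
        have h2 := (ih (j + 1) true (pairBits w y) _ (key w))
        rw [List.take_of_length_le hw, e] at h2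
        exact h2.2 (h1 w (hw.trans hm))

theorem strip_succ' (k : ℕ) : ∀ z : List Bool, strip (k + 1) z = (unpair (strip k z)).2 := by
  induction k with
  | zero => intro z; rfl
  | succ k ih =>
    intro z
    show strip (k + 1) (unpair z).2 = _
    rw [ih]
    rfl

/-- the predicate matters only for strings with the right base string -/
theorem quant_base (m : ℕ) (V V' : List Bool → List Bool) : ∀ (k : ℕ) (b : Bool) (y : List Bool),
    (∀ z, strip k z = y → V z = V' z) → (Quant m V k b y ↔ Quant m V' k b y) := by
  intro k
  induction k with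
  | zero =>
    intro b y h
    simp only [Quant, h y rfl]
  | succ k ih =>
    intro b y h
    have key : ∀ (w : List Bool) (b : Bool),
        (Quant m V k b (pairBits w y) ↔ Quant m V' k b (pairBits w y)) := by
      intro w b
      refine ih b _ (fun z hz => h z ?_)
      rw [strip_succ', hz, unpair_pairBits]
    cases b with
    | true => simp only [Quant, key]
    | false => simp only [Quant, key]

/-! ### The general form -/

/-- the translation of the strings -/
def gphi (n : List Bool → ℕ) (g : List Bool → List Bool) (k : ℕ) (z : List Bool) : List Bool :=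
  pairBits (strip k z) (tG n g k z).2

theorem poly_gphi {n : List Bool → ℕ} (hn : UPoly n) {g : List Bool → List Bool} (hg : Poly g)
    (k : ℕ) : Poly (gphi n g k) :=
  poly_pairBits (poly_strip k) (Poly.snd (poly_tG hn hg k))

theorem gt_main (n : List Bool → ℕ) (g V : List Bool → List Bool) (k m' : ℕ) (x : List Bool)
    (hm : n x ≤ m') :
    Quant (n x) (fun y => V (pairBits x y)) k true (g x) ↔
      Quant m' (fun z => V (gphi n g k z)) k true x := by
  have h := quant_tG n g (fun y => V (pairBits x y)) hm k 0 true x (g x) rfl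
  rw [zero_add] at h
  rw [h]
  refine quant_base _ _ _ k true x (fun z hz => ?_)
  rw [gphi, hz]

theorem gtu (hS : S_SEQ) : S_GTU := by
  intro k V n g hV hn hg
  obtain ⟨b, hb⟩ := upoly_bound hn
  exact ⟨fun A z => V A (gphi n g k z), b, UFP.precomp hS hV (poly_gphi hn hg k),
    fun A x => gt_main n g (V A) k _ x (hb x)⟩

theorem gtn : S_GTN := by
  intro A k V n g hV hn hg
  obtain ⟨b, hb⟩ := upoly_bound hn
  exact ⟨fun z => V (gphi n g k z), b, hV.precomp (poly_gphi hn hg k),
    fun x => gt_main n g V k _ x (hb x)⟩

/-! ### One more quantifier -/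

/-- truncation of the outer string to length `n x` -/
def mG (n : List Bool → ℕ) (y : List Bool) : List Bool :=
  pairBits (((unpair y).1.zip (List.replicate (n (unpair y).2) ())).map (fun u => u.1))
    (unpair y).2

theorem poly_mG {n : List Bool → ℕ} (hn : UPoly n) : Poly (mG n) := by
  have h1 : Poly (fun z : List Bool => (unpair z).1) := Poly.fst poly_unpair
  have h2 : Poly (fun z : List Bool => (unpair z).2) := Poly.snd poly_unpair
  have h4 : Poly (fun z : List Bool => (unpair z).1.zip (List.replicate (n (unpair z).2) ())) :=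
    Poly.zip h1 (hn.comp h2)
  have h5 : Poly (fun z : List Bool =>
      ((unpair z).1.zip (List.replicate (n (unpair z).2) ())).map (fun u => u.1)) :=
    Pool.Agent.NPC.Poly.map (F := fun _ u => u.1) h4 (Poly.fst (Poly.snd Poly.id))
  exact poly_pairBits h5 h2

theorem mG_pair (n : List Bool → ℕ) (w x : List Bool) :
    mG n (pairBits w x) = pairBits (w.take (n x)) x := by
  simp only [mG, unpair_pairBits, map_fst_zip_replicate']

/-- the translation of the strings -/
def mphi (n : List Bool → ℕ) (p : Polynomial ℕ) (k : ℕ) (z : List Bool) : List Bool :=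
  (tG (fun y => p.eval (mG n y).length) (mG n) k z).2

theorem poly_mphi {n : List Bool → ℕ} (hn : UPoly n) (p : Polynomial ℕ) (k : ℕ) :
    Poly (mphi n p k) :=
  Poly.snd (poly_tG (UPoly.eval (UPoly.length (poly_mG hn)) p) (poly_mG hn) k)

theorem mr_main (n : List Bool → ℕ) (p : Polynomial ℕ) (V : List Bool → List Bool) (k m' : ℕ)
    (x : List Bool) (h1 : n x ≤ m') (h2 : p.eval (2 * n x + x.length + 2) ≤ m') :
    (∃ w : List Bool, w.length ≤ n x ∧
      ¬ Quant (p.eval (pairBits w x).length) V k true (pairBits w x)) ↔
      Quant m' (fun z => notF (V (mphi n p k z))) (k + 1) true x := by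
  have key : ∀ w : List Bool, (Quant m' (fun z => notF (V (mphi n p k z))) k false (pairBits w x) ↔
      ¬ Quant (p.eval (pairBits (w.take (n x)) x).length) V k true (pairBits (w.take (n x)) x)) := by
    intro w
    have hm : p.eval (mG n (pairBits w x)).length ≤ m' := by
      refine le_trans (eval_mono _ ?_) h2
      rw [mG_pair, length_pairBits]
      have : (w.take (n x)).length ≤ n x := by simp
      omega
    have h := quant_tG (fun y => p.eval (mG n y).length) (mG n) (fun z => notF (V z)) hm k 0 false
      (pairBits w x) (mG n (pairBits w x)) rfl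
    rw [zero_add] at h
    have h3 := quant_not (p.eval (mG n (pairBits w x)).length) V k false (mG n (pairBits w x))
    rw [h] at h3
    rw [mG_pair] at h3
    exact h3
  simp only [Quant, key]
  constructor
  · rintro ⟨w, hw, h⟩
    refine ⟨w, hw.trans h1, ?_⟩
    rwa [List.take_of_length_le hw]
  · rintro ⟨w, _, h⟩
    exact ⟨w.take (n x), by simp, h⟩

theorem mr_bound {n : List Bool → ℕ} (hn : UPoly n) (p : Polynomial ℕ) :
    ∃ q : Polynomial ℕ, ∀ x : List Bool, n x ≤ q.eval x.length ∧
      p.eval (2 * n x + x.length + 2) ≤ q.eval x.length := by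
  obtain ⟨b, hb⟩ := upoly_bound hn
  refine ⟨b + p.comp (Polynomial.C 2 * b + Polynomial.X + Polynomial.C 2), fun x => ?_⟩
  have h := hb x
  rw [Polynomial.eval_add, Polynomial.eval_comp]
  constructor
  · exact h.trans (Nat.le_add_right _ _)
  · refine le_trans (eval_mono _ ?_) (Nat.le_add_left _ _)
    simp only [Polynomial.eval_add, Polynomial.eval_mul, Polynomial.eval_C, Polynomial.eval_X]
    omega

theorem mru (hS : S_SEQ) : S_MRU := by
  intro k S n hSg hn
  obtain ⟨V, p, hV, hL⟩ := hSg
  obtain ⟨q, hq⟩ := mr_bound hn p
  refine ⟨fun A z => notF (V A (mphi n p k z)), q,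
    UFP.not hS (UFP.precomp hS hV (poly_mphi hn p k)), fun A x => ?_⟩
  rw [← mr_main n p (V A) k _ x (hq x).1 (hq x).2]
  simp only [Set.mem_setOf_eq, hL]

theorem mrn : S_MRN := by
  intro A k L n hSg hn
  obtain ⟨V, p, hV, hL⟩ := hSg
  obtain ⟨q, hq⟩ := mr_bound hn p
  refine ⟨fun z => notF (V (mphi n p k z)), q,
    IsFP.not (hV.precomp (poly_mphi hn p k)), fun x => ?_⟩
  rw [← mr_main n p V k _ x (hq x).1 (hq x).2]
  simp only [Set.mem_setOf_eq, hL]

/-! ### The outermost quantifier -/

theorem peel_main (p : Polynomial ℕ) (V : List Bool → List Bool) (k : ℕ) (x : List Bool) :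
    Quant (p.eval x.length) V (k + 1) true x ↔ ∃ w : List Bool, w.length ≤ p.eval x.length ∧
      pairBits w x ∉ {y | Quant (p.eval (unpair y).2.length)
        (fun y' => notF (V (unpair (pairBits y y')).2)) k true y} := by
  simp only [Quant, Set.mem_setOf_eq, unpair_pairBits]
  have h := fun w : List Bool => quant_not (p.eval x.length) V k true (pairBits w x)
  simp only [h, not_not, Bool.not_true]

theorem upoly_peel (p : Polynomial ℕ) :
    UPoly (fun y : List Bool => p.eval (unpair y).2.length) :=
  UPoly.eval (UPoly.length (Poly.snd poly_unpair)) p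

theorem peelu (hS : S_SEQ) : S_PEELU := by
  intro k S hSg
  obtain ⟨V, p, hV, hL⟩ := hSg
  refine ⟨fun A => {y | Quant (p.eval (unpair y).2.length)
    (fun y' => notF (V A (unpair (pairBits y y')).2)) k true y}, fun x => p.eval x.length,
    ?_, UPoly.eval (UPoly.length Poly.id) p, fun A x => ?_⟩
  · exact gtu hS k (fun A z => notF (V A (unpair z).2)) (fun y => p.eval (unpair y).2.length)
      (fun y => y) (UFP.not hS (UFP.precomp hS hV (Poly.snd poly_unpair))) (upoly_peel p) Poly.id
  · rw [hL]
    exact peel_main p (V A) k x

theorem peeln : S_PEELN := by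
  intro A k L hSg
  obtain ⟨V, p, hV, hL⟩ := hSg
  refine ⟨{y | Quant (p.eval (unpair y).2.length)
    (fun y' => notF (V (unpair (pairBits y y')).2)) k true y}, fun x => p.eval x.length,
    ?_, UPoly.eval (UPoly.length Poly.id) p, fun x => ?_⟩
  · exact gtn A k (fun z => notF (V (unpair z).2)) (fun y => p.eval (unpair y).2.length)
      (fun y => y) (IsFP.not (hV.precomp (Poly.snd poly_unpair))) (upoly_peel p) Poly.id
  · rw [hL]
    exact peel_main p V k x

end Pool.Agent.W2helper85.LC
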